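import Pool.Agent.Lib.MP_31cf03_an.Tri

set_option autoImplicit false
open MeasureTheory

namespace Pool.Agent.Lib.MP_31cf03_an

/-! ### The numbers `q = 2^{1/8}` and one-dimensional sums -/

noncomputable def q : ℝ := (2 : ℝ) ^ ((1 : ℝ) / 8)

lemma q_pow : q ^ 8 = 2 := by
  unfold q
  rw [← Real.rpow_natCast, ← Real.rpow_mul (by norm_num)]
  norm_num

lemma q_pos : 0 < q := by unfold q; positivity

lemma one_lt_q : 1 < q := by
  unfold q
  exact Real.one_lt_rpow (by norm_num) (by norm_num)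

noncomputable def C1 : ℝ := 2 / (1 - q⁻¹)

lemma q_inv_lt : q⁻¹ < 1 := inv_lt_one_of_one_lt₀ one_lt_q
lemma q_inv_pos : 0 < q⁻¹ := inv_pos.mpr q_pos

lemma C1_pos : 0 < C1 := by
  unfold C1
  have := q_inv_lt
  apply div_pos (by norm_num); linarith

lemma sum1 (L m : ℕ) : ∑ a ∈ Finset.range L, q ^ (2 * min a m) * (q⁻¹) ^ a ≤ C1 * q ^ m := by
  have hq := one_lt_q
  have hq0 := q_pos
  have hr := q_inv_lt
  have hr0 := q_inv_pos
  have h1r : 0 < 1 - q⁻¹ := by linarith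
  have hterm : ∀ a, 0 ≤ q ^ (2 * min a m) * (q⁻¹) ^ a := fun a => by positivity
  have hsub : Finset.range L ⊆ Finset.range (m + 1) ∪ Finset.Ico (m + 1) (max L (m + 1)) := by
    intro a ha
    simp only [Finset.mem_union, Finset.mem_range, Finset.mem_Ico] at ha ⊢
    omega
  have hdisj : Disjoint (Finset.range (m + 1)) (Finset.Ico (m + 1) (max L (m + 1))) := by
    rw [Finset.disjoint_left]
    intro a ha hb
    simp only [Finset.mem_range, Finset.mem_Ico] at ha hb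
    omega
  have e1 : ∑ a ∈ Finset.range (m + 1), q ^ (2 * min a m) * (q⁻¹) ^ a ≤ q ^ m / (1 - q⁻¹) := by
    have h : ∀ a ∈ Finset.range (m + 1), q ^ (2 * min a m) * (q⁻¹) ^ a = q ^ a := by
      intro a ha
      rw [Finset.mem_range] at ha
      rw [min_eq_left (by omega), inv_pow, two_mul, pow_add]
      field_simp
    rw [Finset.sum_congr rfl h, geom_sum_eq hq.ne']
    rw [div_le_div_iff₀ (by linarith) h1r]
    have : q ^ (m + 1) = q ^ m * q := pow_succ q m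
    have h3 : q * q⁻¹ = 1 := mul_inv_cancel₀ hq0.ne'
    have h4 : (q ^ (m + 1) - 1) * (1 - q⁻¹) ≤ q ^ (m + 1) * (1 - q⁻¹) := by
      apply mul_le_mul_of_nonneg_right _ h1r.le
      linarith
    refine h4.trans (le_of_eq ?_)
    rw [this]
    linear_combination (- q ^ m) * h3
  have e2 : ∑ a ∈ Finset.Ico (m + 1) (max L (m + 1)), q ^ (2 * min a m) * (q⁻¹) ^ a ≤ q ^ m / (1 - q⁻¹) := by
    have h : ∀ a ∈ Finset.Ico (m + 1) (max L (m + 1)), q ^ (2 * min a m) * (q⁻¹) ^ a = q ^ (2 * m) * (q⁻¹) ^ a := by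
      intro a ha
      rw [Finset.mem_Ico] at ha
      rw [min_eq_right (by omega)]
    rw [Finset.sum_congr rfl h, ← Finset.mul_sum]
    have h2 := geom_sum_Ico_le_of_lt_one (m := m + 1) (n := max L (m + 1)) hr0.le hr
    calc q ^ (2 * m) * ∑ a ∈ Finset.Ico (m + 1) (max L (m + 1)), (q⁻¹) ^ a
        ≤ q ^ (2 * m) * ((q⁻¹) ^ (m + 1) / (1 - q⁻¹)) := mul_le_mul_of_nonneg_left h2 (by positivity)
      _ = q ^ m * q⁻¹ / (1 - q⁻¹) := by
          have : q ^ (2 * m) * (q⁻¹) ^ (m + 1) = q ^ m * q⁻¹ := by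
            rw [two_mul, pow_add, pow_succ, inv_pow]
            field_simp
          rw [← mul_div_assoc, this]
      _ ≤ q ^ m / (1 - q⁻¹) := by
          apply div_le_div_of_nonneg_right _ h1r.le
          have := mul_le_mul_of_nonneg_left hr.le (pow_nonneg hq0.le m)
          linarith
  calc ∑ a ∈ Finset.range L, q ^ (2 * min a m) * (q⁻¹) ^ a
      ≤ ∑ a ∈ Finset.range (m + 1) ∪ Finset.Ico (m + 1) (max L (m + 1)), q ^ (2 * min a m) * (q⁻¹) ^ a :=
        Finset.sum_le_sum_of_subset_of_nonneg hsub (fun a _ _ => hterm a)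
    _ = _ := Finset.sum_union hdisj
    _ ≤ q ^ m / (1 - q⁻¹) + q ^ m / (1 - q⁻¹) := add_le_add e1 e2
    _ = C1 * q ^ m := by unfold C1; ring

/-- Rankin's trick: the sum over the blocks. -/
lemma sum_blocks {d : ℕ} (S : Finset (Fin d → ℕ)) (P : ℝ) (hP : ∀ s ∈ S, q ^ (∑ j, s j) ≤ P)
    (m : Fin d → ℕ) (hP0 : 0 ≤ P) :
    ∑ s ∈ S, (∏ j, q ^ (2 * min (s j) (m j))) * q ^ (2 * ∑ j, s j) ≤
      P ^ 3 * (C1 ^ d * q ^ (∑ j, m j)) := by
  have hq0 := q_pos
  have h1 : ∀ s ∈ S, (∏ j, q ^ (2 * min (s j) (m j))) * q ^ (2 * ∑ j, s j) ≤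
      P ^ 3 * ∏ j, (q ^ (2 * min (s j) (m j)) * (q⁻¹) ^ (s j)) := by
    intro s hs
    have h0 : ∏ j, (q⁻¹) ^ (s j) = (q ^ (∑ j, s j))⁻¹ := by
      rw [Finset.prod_pow_eq_pow_sum, inv_pow]
    rw [Finset.prod_mul_distrib, h0]
    have h2 : q ^ (2 * ∑ j, s j) ≤ P ^ 3 * (q ^ (∑ j, s j))⁻¹ := by
      rw [← div_eq_mul_inv, le_div_iff₀ (by positivity)]
      calc q ^ (2 * ∑ j, s j) * q ^ (∑ j, s j) = (q ^ (∑ j, s j)) ^ 3 := by ring
        _ ≤ P ^ 3 := pow_le_pow_left₀ (by positivity) (hP s hs) 3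
    calc (∏ j, q ^ (2 * min (s j) (m j))) * q ^ (2 * ∑ j, s j)
        ≤ (∏ j, q ^ (2 * min (s j) (m j))) * (P ^ 3 * (q ^ (∑ j, s j))⁻¹) :=
          mul_le_mul_of_nonneg_left h2 (by positivity)
      _ = _ := by ring
  obtain ⟨L, hL⟩ : ∃ L : ℕ, S ⊆ Fintype.piFinset (fun _ : Fin d => Finset.range L) := by
    refine ⟨(S.sup fun s => ∑ j, s j) + 1, fun s hs => ?_⟩
    rw [Fintype.mem_piFinset]
    intro j
    rw [Finset.mem_range, Nat.lt_succ_iff]
    calc s j ≤ ∑ j, s j := Finset.single_le_sum (fun _ _ => Nat.zero_le _) (Finset.mem_univ j)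
      _ ≤ _ := Finset.le_sup (f := fun s : Fin d → ℕ => ∑ j, s j) hs
  calc _ ≤ ∑ s ∈ S, P ^ 3 * ∏ j, (q ^ (2 * min (s j) (m j)) * (q⁻¹) ^ (s j)) := Finset.sum_le_sum h1
    _ ≤ ∑ s ∈ Fintype.piFinset (fun _ : Fin d => Finset.range L),
          P ^ 3 * ∏ j, (q ^ (2 * min (s j) (m j)) * (q⁻¹) ^ (s j)) := by
        apply Finset.sum_le_sum_of_subset_of_nonneg hL
        intro s _ _
        have := q_inv_pos
        positivity
    _ = P ^ 3 * ∏ j, ∑ a ∈ Finset.range L, (q ^ (2 * min a (m j)) * (q⁻¹) ^ a) := by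
        rw [← Finset.mul_sum, Finset.prod_univ_sum]
    _ ≤ P ^ 3 * ∏ j : Fin d, (C1 * q ^ (m j)) := by
        apply mul_le_mul_of_nonneg_left _ (by positivity)
        apply Finset.prod_le_prod
        · intro j _
          apply Finset.sum_nonneg
          intro a _
          have := q_inv_pos
          positivity
        · intro j _
          exact sum1 L (m j)
    _ = _ := by
        rw [Finset.prod_mul_distrib, Finset.prod_pow_eq_pow_sum]
        simp

/-! ### Blocks -/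

/-- index of the dyadic block of a frequency -/
def blk {d : ℕ} (k : Fin d → ℤ) : Fin d → ℕ := fun j => Nat.log 2 (k j).natAbs

/-- the box containing a dyadic block -/
noncomputable def box {d : ℕ} (s : Fin d → ℕ) : Fin d → Finset ℤ :=
  fun j => Finset.Ioo (-(2 ^ (s j + 1) : ℤ)) (2 ^ (s j + 1))

lemma blk_mem_box {d : ℕ} (k : Fin d → ℤ) : k ∈ Fintype.piFinset (box (blk k)) := by
  rw [Fintype.mem_piFinset]
  intro j
  unfold box blk
  rw [Finset.mem_Ioo, ← abs_lt, Int.abs_eq_natAbs]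
  have := Nat.lt_pow_succ_log_self (b := 2) (by norm_num) (k j).natAbs
  exact_mod_cast this

lemma box_card {d : ℕ} (s : Fin d → ℕ) (j : Fin d) : ((box s j).card : ℝ) ≤ 4 * q ^ (8 * s j) := by
  unfold box
  rw [Int.card_Ioo, pow_mul, q_pow]
  have h : ((2 ^ (s j + 1) - -2 ^ (s j + 1) - 1 : ℤ).toNat : ℝ) ≤ ((4 * 2 ^ (s j) : ℕ) : ℝ) := by
    apply Nat.cast_le.mpr
    apply Int.toNat_le.mpr
    push_cast
    have : (2 : ℤ) ^ (s j + 1) = 2 * 2 ^ (s j) := by ring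
    omega
  refine h.trans (le_of_eq ?_)
  push_cast
  ring

lemma blk_pow_le {d : ℕ} (k : Fin d → ℤ) : (2 : ℝ) ^ (∑ j, blk k j) ≤ ∏ j, max |(k j : ℝ)| 1 := by
  rw [← Finset.prod_pow_eq_pow_sum]
  apply Finset.prod_le_prod
  · intro j _; positivity
  · intro j _
    unfold blk
    by_cases h : (k j).natAbs = 0
    · rw [h]; simp
    · have h1 := Nat.pow_log_le_self 2 h
      have h2 : ((2 ^ Nat.log 2 (k j).natAbs : ℕ) : ℝ) ≤ (((k j).natAbs : ℕ) : ℝ) := Nat.cast_le.mpr h1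
      have h3 : (((k j).natAbs : ℕ) : ℝ) = |(k j : ℝ)| := by
        rw [Nat.cast_natAbs, Int.cast_abs]
      rw [h3] at h2
      push_cast at h2
      exact h2.trans (le_max_left _ _)

lemma sqrt_min_le (a b c : ℕ) (x y z : ℝ) (hx : x ≤ 4 * q ^ (8 * a)) (hy : y ≤ 4 * q ^ (8 * b))
    (hz : z ≤ 4 * q ^ (8 * c)) :
    √(min (min x y) z) ≤ 2 * (q ^ (2 * min b a) * q ^ (2 * min c a)) := by
  have hq1 := one_lt_q
  have hq0 := q_pos
  have h4 : √(min (min x y) z) ≤ √(4 * q ^ (8 * min (min a b) c)) := by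
    apply Real.sqrt_le_sqrt
    rcases min_choice (min a b) c with h | h
    · rw [h]
      rcases min_choice a b with h' | h'
      · rw [h']; exact ((min_le_left _ _).trans (min_le_left _ _)).trans hx
      · rw [h']; exact ((min_le_left _ _).trans (min_le_right _ _)).trans hy
    · rw [h]; exact (min_le_right _ _).trans hz
  have h5 : √(4 * q ^ (8 * min (min a b) c)) = 2 * q ^ (4 * min (min a b) c) := by
    have : 4 * q ^ (8 * min (min a b) c) = (2 * q ^ (4 * min (min a b) c)) ^ 2 := by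
      rw [mul_pow, ← pow_mul]
      ring_nf
    rw [this, Real.sqrt_sq (by positivity)]
  rw [h5] at h4
  refine h4.trans ?_
  apply mul_le_mul_of_nonneg_left _ (by norm_num)
  rw [← pow_add]
  apply pow_le_pow_right₀ hq1.le
  omega

/-- the trilinear estimate for blocks -/
lemma tri_blocks {d : ℕ} (s s' s'' : Fin d → ℕ) (c1 c2 c3 : (Fin d → ℤ) → ℂ) :
    ∫ x, Q (K := Unit) (box s) (fun _ => c1) x * Q (K := Unit) (box s') (fun _ => c2) x
        * Q (K := Unit) (box s'') (fun _ => c3) x ∂(μ d) ≤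
      2 ^ d * ((∏ j, q ^ (2 * min (s' j) (s j))) * (∏ j, q ^ (2 * min (s'' j) (s j)))) *
        (NN (K := Unit) (box s) (fun _ => c1) * NN (K := Unit) (box s') (fun _ => c2) *
          NN (K := Unit) (box s'') (fun _ => c3)) := by
  have h := tri d Unit Unit Unit (box s) (box s') (box s'') (fun _ => c1) (fun _ => c2) (fun _ => c3)
  refine h.trans ?_
  apply mul_le_mul_of_nonneg_right
  · have h2 : (2 : ℝ) ^ d = ∏ j : Fin d, (2 : ℝ) := by simp
    rw [h2, ← Finset.prod_mul_distrib, ← Finset.prod_mul_distrib]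
    apply Finset.prod_le_prod
    · intro j _; positivity
    · intro j _
      push_cast
      exact sqrt_min_le (s j) (s' j) (s'' j) _ _ _ (box_card s j) (box_card s' j) (box_card s'' j)
  · exact mul_nonneg (mul_nonneg (NN_nonneg _ _) (NN_nonneg _ _)) (NN_nonneg _ _)

/-! ### Trigonometric polynomials with spectrum in a finite set -/

noncomputable def pol {d : ℕ} (G : Finset (Fin d → ℤ)) (c : (Fin d → ℤ) → ℂ) (x : Fin d → ℝ) : ℂ :=
  ∑ k ∈ G, c k * ee k x

noncomputable def nrm {d : ℕ} (G : Finset (Fin d → ℤ)) (c : (Fin d → ℤ) → ℂ) : ℝ :=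
  √(∑ k ∈ G, ‖c k‖ ^ 2)

lemma nrm_nonneg {d : ℕ} (G : Finset (Fin d → ℤ)) (c : (Fin d → ℤ) → ℂ) : 0 ≤ nrm G c :=
  Real.sqrt_nonneg _

lemma nrm_sq {d : ℕ} (G : Finset (Fin d → ℤ)) (c : (Fin d → ℤ) → ℂ) :
    nrm G c ^ 2 = ∑ k ∈ G, ‖c k‖ ^ 2 :=
  Real.sq_sqrt (Finset.sum_nonneg fun _ _ => by positivity)

open Classical in
noncomputable def Gs {d : ℕ} (G : Finset (Fin d → ℤ)) (s : Fin d → ℕ) : Finset (Fin d → ℤ) :=
  G.filter (fun k => blk k = s)

lemma mem_Gs {d : ℕ} (G : Finset (Fin d → ℤ)) (s : Fin d → ℕ) (k : Fin d → ℤ) :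
    k ∈ Gs G s ↔ k ∈ G ∧ blk k = s := by
  unfold Gs; rw [Finset.mem_filter]

lemma Gs_sub {d : ℕ} (G : Finset (Fin d → ℤ)) (s : Fin d → ℕ) :
    Gs G s ⊆ Fintype.piFinset (box s) := by
  intro k hk
  rw [mem_Gs] at hk
  rw [← hk.2]
  exact blk_mem_box k

lemma pol_cont {d : ℕ} (G : Finset (Fin d → ℤ)) (c : (Fin d → ℤ) → ℂ) : Continuous (pol G c) := by
  unfold pol
  apply continuous_finsetSum
  intro k _
  exact continuous_const.mul (ee_cont k)

lemma pol_bdd {d : ℕ} (G : Finset (Fin d → ℤ)) (c : (Fin d → ℤ) → ℂ) (x : Fin d → ℝ) :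
    ‖pol G c x‖ ≤ ∑ k ∈ G, ‖c k‖ := by
  unfold pol
  refine (norm_sum_le _ _).trans (le_of_eq ?_)
  apply Finset.sum_congr rfl
  intro k _
  rw [norm_mul, ee_norm, mul_one]

open Classical in
lemma tri_pol {d : ℕ} (G : Finset (Fin d → ℤ)) (s s' s'' : Fin d → ℕ) (c1 c2 c3 : (Fin d → ℤ) → ℂ) :
    ∫ x, ‖pol (Gs G s) c1 x‖ * ‖pol (Gs G s') c2 x‖ * ‖pol (Gs G s'') c3 x‖ ∂(μ d) ≤
      2 ^ d * ((∏ j, q ^ (2 * min (s' j) (s j))) * (∏ j, q ^ (2 * min (s'' j) (s j)))) *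
        (nrm (Gs G s) c1 * nrm (Gs G s') c2 * nrm (Gs G s'') c3) := by
  have hQ : ∀ (s : Fin d → ℕ) (c : (Fin d → ℤ) → ℂ) (x : Fin d → ℝ),
      Q (K := Unit) (box s) (fun _ k => if k ∈ Gs G s then c k else 0) x = ‖pol (Gs G s) c x‖ := by
    intro s c x
    unfold Q pol
    rw [Finset.univ_unique, Finset.sum_singleton, Real.sqrt_sq (norm_nonneg _)]
    congr 1
    simp only [ite_mul, zero_mul]
    rw [← Finset.sum_filter, Finset.filter_mem_eq_inter, Finset.inter_eq_right.mpr (Gs_sub G s)]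
  have hN : ∀ (s : Fin d → ℕ) (c : (Fin d → ℤ) → ℂ),
      NN (K := Unit) (box s) (fun _ k => if k ∈ Gs G s then c k else 0) = nrm (Gs G s) c := by
    intro s c
    unfold NN nrm
    rw [Finset.univ_unique, Finset.sum_singleton]
    congr 1
    have : ∀ k, ‖(if k ∈ Gs G s then c k else 0)‖ ^ 2 = if k ∈ Gs G s then ‖c k‖ ^ 2 else 0 := by
      intro k; split_ifs <;> simp
    simp_rw [this]
    rw [← Finset.sum_filter, Finset.filter_mem_eq_inter, Finset.inter_eq_right.mpr (Gs_sub G s)]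
  have h := tri_blocks s s' s'' (fun k => if k ∈ Gs G s then c1 k else 0)
    (fun k => if k ∈ Gs G s' then c2 k else 0) (fun k => if k ∈ Gs G s'' then c3 k else 0)
  simp_rw [hQ, hN] at h
  exact h

/-- orthogonality of the multivariate exponentials -/
lemma orth_ee {d : ℕ} (k l : Fin d → ℤ) :
    ∫ x, ee k x * (starRingEnd ℂ) (ee l x) ∂(μ d) = if k = l then 1 else 0 := by
  have h1 : ∀ x : Fin d → ℝ, ee k x * (starRingEnd ℂ) (ee l x) =
      ∏ j, (e (k j) (x j) * (starRingEnd ℂ) (e (l j) (x j))) := by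
    intro x
    unfold ee
    rw [map_prod, ← Finset.prod_mul_distrib]
  simp_rw [h1]
  unfold μ
  rw [integral_fin_nat_prod_eq_prod (μ := fun _ : Fin d => ν)
    (fun j x => e (k j) x * (starRingEnd ℂ) (e (l j) x))]
  simp_rw [orth]
  split_ifs with h
  · subst h
    simp
  · obtain ⟨j, hj⟩ := Function.ne_iff.mp h
    exact Finset.prod_eq_zero (Finset.mem_univ j) (by rw [if_neg hj])

lemma integral_pol_conj {d : ℕ} (G : Finset (Fin d → ℤ)) (c b : (Fin d → ℤ) → ℂ) :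
    ∫ x, pol G c x * (starRingEnd ℂ) (pol G b x) ∂(μ d) =
      ∑ k ∈ G, c k * (starRingEnd ℂ) (b k) := by
  have h1 : ∀ x : Fin d → ℝ, pol G c x * (starRingEnd ℂ) (pol G b x) =
      ∑ k ∈ G, ∑ l ∈ G, (c k * (starRingEnd ℂ) (b l)) * (ee k x * (starRingEnd ℂ) (ee l x)) := by
    intro x
    unfold pol
    rw [map_sum, Finset.sum_mul_sum]
    apply Finset.sum_congr rfl
    intro k _
    apply Finset.sum_congr rfl
    intro l _
    rw [map_mul]; ring
  have hint : ∀ k l : Fin d → ℤ,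
      Integrable (fun x => (c k * (starRingEnd ℂ) (b l)) * (ee k x * (starRingEnd ℂ) (ee l x))) (μ d) := by
    intro k l
    apply Integrable.const_mul
    have hc : Continuous (fun x => ee k x * (starRingEnd ℂ) (ee l x)) := by
      have := ee_cont k
      have := ee_cont l
      fun_prop
    refine (memLp_one_iff_integrable).mp (MemLp.of_bound hc.aestronglyMeasurable 1 ?_)
    refine Filter.Eventually.of_forall fun x => ?_
    rw [norm_mul, ee_norm, RCLike.norm_conj, ee_norm, one_mul]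
  simp_rw [h1]
  rw [integral_finsetSum _ (fun k _ => integrable_finsetSum _ (fun l _ => hint k l))]
  apply Finset.sum_congr rfl
  intro k hk
  rw [integral_finsetSum _ (fun l _ => hint k l)]
  simp_rw [integral_const_mul, orth_ee]
  simp only [mul_ite, mul_one, mul_zero]
  rw [Finset.sum_ite_eq, if_pos hk]

lemma pol_eq_sum {d : ℕ} (G : Finset (Fin d → ℤ)) (c : (Fin d → ℤ) → ℂ) (x : Fin d → ℝ)
    (S : Finset (Fin d → ℕ)) (hS : ∀ k ∈ G, blk k ∈ S) :
    pol G c x = ∑ s ∈ S, pol (Gs G s) c x := by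
  classical
  unfold pol Gs
  rw [Finset.sum_fiberwise_of_maps_to hS]


lemma sum_fiber {d : ℕ} {E : Type*} [AddCommMonoid E] (G : Finset (Fin d → ℤ)) (f : (Fin d → ℤ) → E)
    (S : Finset (Fin d → ℕ)) (hS : ∀ k ∈ G, blk k ∈ S) :
    ∑ k ∈ G, f k = ∑ s ∈ S, ∑ k ∈ Gs G s, f k := by
  classical
  unfold Gs
  rw [Finset.sum_fiberwise_of_maps_to hS]

/-- the trilinear sum -/
lemma int_mul_sq {d : ℕ} (G : Finset (Fin d → ℤ)) (c b : (Fin d → ℤ) → ℂ)
    (S : Finset (Fin d → ℕ)) (hS : ∀ k ∈ G, blk k ∈ S) (P : ℝ) (hP0 : 0 ≤ P)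
    (hP : ∀ s ∈ S, q ^ (∑ j, s j) ≤ P)
    (hb : ∀ s ∈ S, nrm (Gs G s) b ≤ q ^ (2 * ∑ j, s j)) :
    ∫ x, ‖pol G c x‖ * ‖pol G b x‖ ^ 2 ∂(μ d) ≤
      2 ^ d * (C1 ^ d) ^ 2 * P ^ 6 * ∑ s ∈ S, q ^ (2 * ∑ j, s j) * nrm (Gs G s) c := by
  have hq0 := q_pos
  have hC := C1_pos
  have hpt : ∀ x : Fin d → ℝ, ‖pol G c x‖ * ‖pol G b x‖ ^ 2 ≤
      ∑ s ∈ S, ∑ s' ∈ S, ∑ s'' ∈ S,
        ‖pol (Gs G s) c x‖ * ‖pol (Gs G s') b x‖ * ‖pol (Gs G s'') b x‖ := by
    intro x
    have h1 : ‖pol G c x‖ ≤ ∑ s ∈ S, ‖pol (Gs G s) c x‖ := by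
      rw [pol_eq_sum G c x S hS]; exact norm_sum_le _ _
    have h2 : ‖pol G b x‖ ≤ ∑ s ∈ S, ‖pol (Gs G s) b x‖ := by
      rw [pol_eq_sum G b x S hS]; exact norm_sum_le _ _
    calc ‖pol G c x‖ * ‖pol G b x‖ ^ 2
        ≤ (∑ s ∈ S, ‖pol (Gs G s) c x‖) * (∑ s ∈ S, ‖pol (Gs G s) b x‖) ^ 2 := by
          apply mul_le_mul h1 (pow_le_pow_left₀ (norm_nonneg _) h2 2) (by positivity)
          exact Finset.sum_nonneg fun _ _ => norm_nonneg _
      _ = _ := by
          rw [Finset.sum_mul]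
          apply Finset.sum_congr rfl
          intro s _
          rw [sq, Finset.sum_mul_sum, Finset.mul_sum]
          apply Finset.sum_congr rfl
          intro s' _
          rw [Finset.mul_sum]
          apply Finset.sum_congr rfl
          intro s'' _
          ring
  have hint : ∀ s s' s'' : Fin d → ℕ, Integrable (fun x =>
      ‖pol (Gs G s) c x‖ * ‖pol (Gs G s') b x‖ * ‖pol (Gs G s'') b x‖) (μ d) := by
    intro s s' s''
    have hc : Continuous (fun x => ‖pol (Gs G s) c x‖ * ‖pol (Gs G s') b x‖ * ‖pol (Gs G s'') b x‖) :=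
      ((pol_cont _ _).norm.mul (pol_cont _ _).norm).mul (pol_cont _ _).norm
    refine integrable_of_cont_bdd (μ d) hc
      ((∑ k ∈ Gs G s, ‖c k‖) * (∑ k ∈ Gs G s', ‖b k‖) * (∑ k ∈ Gs G s'', ‖b k‖)) ?_
    intro x
    rw [norm_mul, norm_mul, norm_norm, norm_norm, norm_norm]
    have n1 : 0 ≤ ∑ k ∈ Gs G s, ‖c k‖ := Finset.sum_nonneg fun _ _ => norm_nonneg _
    have n2 : 0 ≤ ∑ k ∈ Gs G s', ‖b k‖ := Finset.sum_nonneg fun _ _ => norm_nonneg _
    exact mul_le_mul (mul_le_mul (pol_bdd _ _ _) (pol_bdd _ _ _) (norm_nonneg _) n1)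
      (pol_bdd _ _ _) (norm_nonneg _) (mul_nonneg n1 n2)
  calc ∫ x, ‖pol G c x‖ * ‖pol G b x‖ ^ 2 ∂(μ d)
      ≤ ∫ x, ∑ s ∈ S, ∑ s' ∈ S, ∑ s'' ∈ S,
        ‖pol (Gs G s) c x‖ * ‖pol (Gs G s') b x‖ * ‖pol (Gs G s'') b x‖ ∂(μ d) := by
        apply integral_mono_of_nonneg (Filter.Eventually.of_forall fun x => by positivity)
        · exact integrable_finsetSum _ fun s _ => integrable_finsetSum _ fun s' _ =>
            integrable_finsetSum _ fun s'' _ => hint s s' s''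
        · exact Filter.Eventually.of_forall hpt
    _ = ∑ s ∈ S, ∑ s' ∈ S, ∑ s'' ∈ S, ∫ x,
        ‖pol (Gs G s) c x‖ * ‖pol (Gs G s') b x‖ * ‖pol (Gs G s'') b x‖ ∂(μ d) := by
        rw [integral_finsetSum _ fun s _ => integrable_finsetSum _ fun s' _ =>
            integrable_finsetSum _ fun s'' _ => hint s s' s'']
        apply Finset.sum_congr rfl
        intro s _
        rw [integral_finsetSum _ fun s' _ => integrable_finsetSum _ fun s'' _ => hint s s' s'']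
        apply Finset.sum_congr rfl
        intro s' _
        rw [integral_finsetSum _ fun s'' _ => hint s s' s'']
    _ ≤ ∑ s ∈ S, ∑ s' ∈ S, ∑ s'' ∈ S,
        2 ^ d * ((∏ j, q ^ (2 * min (s' j) (s j))) * (∏ j, q ^ (2 * min (s'' j) (s j)))) *
          (nrm (Gs G s) c * q ^ (2 * ∑ j, s' j) * q ^ (2 * ∑ j, s'' j)) := by
        apply Finset.sum_le_sum
        intro s hs
        apply Finset.sum_le_sum
        intro s' hs'
        apply Finset.sum_le_sum
        intro s'' hs''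
        refine (tri_pol G s s' s'' c b b).trans ?_
        apply mul_le_mul_of_nonneg_left _ (by positivity)
        exact mul_le_mul (mul_le_mul le_rfl (hb s' hs') (nrm_nonneg _ _) (nrm_nonneg _ _))
          (hb s'' hs'') (nrm_nonneg _ _) (mul_nonneg (nrm_nonneg _ _) (by positivity))
    _ = ∑ s ∈ S, 2 ^ d * nrm (Gs G s) c *
        (∑ s' ∈ S, (∏ j, q ^ (2 * min (s' j) (s j))) * q ^ (2 * ∑ j, s' j)) ^ 2 := by
        have hF : ∀ (F : (Fin d → ℕ) → ℝ) (a : ℝ), a * (∑ s' ∈ S, F s') ^ 2 =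
            ∑ s' ∈ S, ∑ s'' ∈ S, a * (F s' * F s'') := by
          intro F a
          rw [sq, Finset.sum_mul_sum, Finset.mul_sum]
          apply Finset.sum_congr rfl
          intro s' _
          rw [Finset.mul_sum]
        apply Finset.sum_congr rfl
        intro s _
        rw [hF]
        apply Finset.sum_congr rfl
        intro s' _
        apply Finset.sum_congr rfl
        intro s'' _
        ring
    _ ≤ ∑ s ∈ S, 2 ^ d * nrm (Gs G s) c * (P ^ 3 * (C1 ^ d * q ^ (∑ j, s j))) ^ 2 := by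
        apply Finset.sum_le_sum
        intro s hs
        apply mul_le_mul_of_nonneg_left _ (mul_nonneg (by positivity) (nrm_nonneg _ _))
        apply pow_le_pow_left₀
        · exact Finset.sum_nonneg fun _ _ => by positivity
        · exact sum_blocks S P hP s hP0
    _ = _ := by
        rw [Finset.mul_sum]
        apply Finset.sum_congr rfl
        intro s _
        ring

theorem key {d : ℕ} (P : ℝ) (hP1 : 1 ≤ P) (G : Finset (Fin d → ℤ))
    (hG : ∀ k ∈ G, ∏ j, max |(k j : ℝ)| 1 ≤ P ^ 8) (c : (Fin d → ℤ) → ℂ) :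
    ∑ k ∈ G, ‖c k‖ ≤ (4 ^ (d + 1) * (C1 ^ d) ^ 2) * P ^ 8 * ∫ x, ‖pol G c x‖ ∂(μ d) := by
  classical
  have hq0 := q_pos
  have hC := C1_pos
  have hP0 : 0 < P := by linarith
  set S : Finset (Fin d → ℕ) := G.image blk with hSdef
  have hS : ∀ k ∈ G, blk k ∈ S := fun k hk => Finset.mem_image_of_mem _ hk
  have hP : ∀ s ∈ S, q ^ (∑ j, s j) ≤ P := by
    intro s hs
    obtain ⟨k, hk, rfl⟩ := Finset.mem_image.mp hs
    have h1 := (blk_pow_le k).trans (hG k hk)
    rw [← q_pow, ← pow_mul, mul_comm, pow_mul] at h1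
    exact le_of_pow_le_pow_left₀ (by norm_num) hP0.le h1
  set w : (Fin d → ℕ) → ℝ := fun s => q ^ (2 * ∑ j, s j) with hw
  have hw0 : ∀ s, 0 < w s := fun s => by rw [hw]; positivity
  set A : (Fin d → ℕ) → ℝ := fun s => nrm (Gs G s) c with hA
  have hA0 : ∀ s, 0 ≤ A s := fun s => nrm_nonneg _ _
  set T : ℝ := ∑ s ∈ S, w s * A s with hT
  have hT0 : 0 ≤ T := Finset.sum_nonneg fun s _ => mul_nonneg (hw0 s).le (hA0 s)
  set b : (Fin d → ℤ) → ℂ := fun k => ((w (blk k) * (A (blk k))⁻¹ : ℝ) : ℂ) * c k with hb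
  have hAA : ∀ s, (A s)⁻¹ * (A s) ^ 2 = A s := by
    intro s
    by_cases h : A s = 0
    · rw [h]; simp
    · field_simp
  have hnb : ∀ s ∈ S, nrm (Gs G s) b ≤ q ^ (2 * ∑ j, s j) := by
    intro s _
    have h1 : nrm (Gs G s) b ^ 2 = (w s * (A s)⁻¹ * A s) ^ 2 := by
      rw [nrm_sq]
      have h2 : ∀ k ∈ Gs G s, ‖b k‖ ^ 2 = (w s * (A s)⁻¹) ^ 2 * ‖c k‖ ^ 2 := by
        intro k hk
        rw [mem_Gs] at hk
        rw [hb]
        simp only
        rw [hk.2, norm_mul, mul_pow, Complex.norm_real, Real.norm_eq_abs, sq_abs]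
      rw [Finset.sum_congr rfl h2, ← Finset.mul_sum, ← nrm_sq]
      simp only [hA]
      ring
    have h3 : nrm (Gs G s) b = w s * (A s)⁻¹ * A s := by
      have n1 := nrm_nonneg (Gs G s) b
      have n2 : 0 ≤ w s * (A s)⁻¹ * A s :=
        mul_nonneg (mul_nonneg (hw0 s).le (inv_nonneg.mpr (hA0 s))) (hA0 s)
      exact (pow_left_inj₀ n1 n2 (by norm_num)).mp h1
    rw [h3, mul_assoc]
    calc w s * ((A s)⁻¹ * A s) ≤ w s * 1 := by
          apply mul_le_mul_of_nonneg_left _ (hw0 s).le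
          by_cases h : A s = 0
          · rw [h]; simp
          · rw [inv_mul_cancel₀ h]
      _ = q ^ (2 * ∑ j, s j) := by rw [mul_one]
  have hTeq : ((T : ℝ) : ℂ) = ∫ x, pol G c x * (starRingEnd ℂ) (pol G b x) ∂(μ d) := by
    rw [integral_pol_conj, sum_fiber G _ S hS, hT]
    push_cast
    apply Finset.sum_congr rfl
    intro s _
    have h2 : ∀ k ∈ Gs G s, c k * (starRingEnd ℂ) (b k) = ((w s * (A s)⁻¹ * ‖c k‖ ^ 2 : ℝ) : ℂ) := by
      intro k hk
      rw [mem_Gs] at hk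
      rw [hb]
      simp only
      rw [hk.2, map_mul, Complex.conj_ofReal]
      push_cast
      rw [← Complex.mul_conj']
      ring
    rw [Finset.sum_congr rfl h2, ← Complex.ofReal_sum, ← Finset.mul_sum, ← nrm_sq]
    have h3 : w s * (A s)⁻¹ * nrm (Gs G s) c ^ 2 = w s * A s := by
      have := hAA s
      rw [mul_assoc]
      simp only [hA] at this ⊢
      rw [this]
    rw [h3]
    push_cast
    rfl
  have hTle : T ≤ ∫ x, ‖pol G c x‖ * ‖pol G b x‖ ∂(μ d) := by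
    have h1 : ‖((T : ℝ) : ℂ)‖ ≤ ∫ x, ‖pol G c x * (starRingEnd ℂ) (pol G b x)‖ ∂(μ d) := by
      rw [hTeq]; exact norm_integral_le_integral_norm _
    rw [Complex.norm_real, Real.norm_of_nonneg hT0] at h1
    simpa only [norm_mul, RCLike.norm_conj] using h1
  set K : ℝ := 2 ^ d * (C1 ^ d) ^ 2 with hK
  have hK0 : 0 < K := by rw [hK]; positivity
  set lam : ℝ := 2 * K * P ^ 6 with hlam
  have hlam0 : 0 < lam := by rw [hlam]; positivity
  have hint1 : Integrable (fun x => ‖pol G c x‖) (μ d) :=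
    integrable_of_cont_bdd (μ d) (pol_cont _ _).norm (∑ k ∈ G, ‖c k‖)
      (fun x => by rw [norm_norm]; exact pol_bdd _ _ _)
  have hint2 : Integrable (fun x => ‖pol G c x‖ * ‖pol G b x‖ ^ 2) (μ d) := by
    refine integrable_of_cont_bdd (μ d) ((pol_cont _ _).norm.mul ((pol_cont _ _).norm.pow 2))
      ((∑ k ∈ G, ‖c k‖) * (∑ k ∈ G, ‖b k‖) ^ 2) ?_
    intro x
    rw [norm_mul, norm_pow, norm_norm, norm_norm]
    exact mul_le_mul (pol_bdd _ _ _) (pow_le_pow_left₀ (norm_nonneg _) (pol_bdd _ _ _) 2)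
      (by positivity) (Finset.sum_nonneg fun _ _ => norm_nonneg _)
  have hsplit : ∫ x, ‖pol G c x‖ * ‖pol G b x‖ ∂(μ d) ≤
      lam * ∫ x, ‖pol G c x‖ ∂(μ d) + lam⁻¹ * ∫ x, ‖pol G c x‖ * ‖pol G b x‖ ^ 2 ∂(μ d) := by
    rw [← integral_const_mul, ← integral_const_mul, ← integral_add (hint1.const_mul _) (hint2.const_mul _)]
    apply integral_mono_of_nonneg (Filter.Eventually.of_forall fun x => by positivity)
      ((hint1.const_mul _).add (hint2.const_mul _))
    refine Filter.Eventually.of_forall fun x => ?_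
    show ‖pol G c x‖ * ‖pol G b x‖ ≤ lam * ‖pol G c x‖ + lam⁻¹ * (‖pol G c x‖ * ‖pol G b x‖ ^ 2)
    have hu : ‖pol G b x‖ ≤ lam + lam⁻¹ * ‖pol G b x‖ ^ 2 := by
      have h1 : 0 ≤ (lam - ‖pol G b x‖) ^ 2 := sq_nonneg _
      have h2 : 0 ≤ ‖pol G b x‖ := norm_nonneg _
      have h3 : lam + lam⁻¹ * ‖pol G b x‖ ^ 2 - ‖pol G b x‖ =
          lam⁻¹ * ((lam - ‖pol G b x‖) ^ 2 + lam * ‖pol G b x‖) := by
        field_simp
        ring
      have h4 : 0 ≤ lam⁻¹ * ((lam - ‖pol G b x‖) ^ 2 + lam * ‖pol G b x‖) := by positivity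
      linarith
    calc ‖pol G c x‖ * ‖pol G b x‖ ≤ ‖pol G c x‖ * (lam + lam⁻¹ * ‖pol G b x‖ ^ 2) :=
          mul_le_mul_of_nonneg_left hu (norm_nonneg _)
      _ = _ := by ring
  have htri := int_mul_sq G c b S hS P hP0.le hP hnb
  have hTfin : T ≤ 2 * lam * ∫ x, ‖pol G c x‖ ∂(μ d) := by
    have h1 : lam⁻¹ * ∫ x, ‖pol G c x‖ * ‖pol G b x‖ ^ 2 ∂(μ d) ≤ lam⁻¹ * (K * P ^ 6 * T) :=
      mul_le_mul_of_nonneg_left htri (by positivity)
    have h2 : lam⁻¹ * (K * P ^ 6 * T) = T / 2 := by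
      rw [hlam]
      field_simp
    rw [h2] at h1
    linarith
  -- final step
  have hcard : ∀ s ∈ S, ((Gs G s).card : ℝ) ≤ (2 ^ d * (w s) ^ 2) ^ 2 := by
    intro s _
    have h1 : ((Gs G s).card : ℝ) ≤ ((Fintype.piFinset (box s)).card : ℝ) :=
      Nat.cast_le.mpr (Finset.card_le_card (Gs_sub G s))
    refine h1.trans ?_
    rw [Fintype.card_piFinset]
    push_cast
    calc ∏ j, ((box s j).card : ℝ) ≤ ∏ j, (4 * q ^ (8 * s j)) :=
          Finset.prod_le_prod (fun j _ => by positivity) (fun j _ => box_card s j)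
      _ = _ := by
          rw [Finset.prod_mul_distrib, Finset.prod_const, Finset.card_univ, Fintype.card_fin,
            Finset.prod_pow_eq_pow_sum, ← Finset.mul_sum, hw]
          have : (4 : ℝ) ^ d = (2 ^ d) ^ 2 := by rw [← pow_mul, mul_comm d 2, pow_mul]; norm_num
          rw [this]
          ring
  calc ∑ k ∈ G, ‖c k‖ = ∑ s ∈ S, ∑ k ∈ Gs G s, ‖c k‖ := sum_fiber G _ S hS
    _ ≤ ∑ s ∈ S, (2 ^ d * (w s) ^ 2) * A s := by
        apply Finset.sum_le_sum
        intro s hs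
        have h1 : (∑ k ∈ Gs G s, ‖c k‖) ^ 2 ≤ ((2 ^ d * (w s) ^ 2) * A s) ^ 2 := by
          calc (∑ k ∈ Gs G s, ‖c k‖) ^ 2 ≤ (Gs G s).card * ∑ k ∈ Gs G s, ‖c k‖ ^ 2 :=
                sq_sum_le_card_mul_sum_sq
            _ = (Gs G s).card * (A s) ^ 2 := by rw [hA]; simp only; rw [nrm_sq]
            _ ≤ (2 ^ d * (w s) ^ 2) ^ 2 * (A s) ^ 2 :=
                mul_le_mul_of_nonneg_right (hcard s hs) (by positivity)
            _ = _ := by ring
        exact le_of_pow_le_pow_left₀ (by norm_num) (mul_nonneg (by positivity) (hA0 s)) h1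
    _ ≤ ∑ s ∈ S, 2 ^ d * P ^ 2 * (w s * A s) := by
        apply Finset.sum_le_sum
        intro s hs
        have h1 : w s ≤ P ^ 2 := by
          have : w s = (q ^ (∑ j, s j)) ^ 2 := by rw [hw]; ring
          rw [this]
          exact pow_le_pow_left₀ (by positivity) (hP s hs) 2
        calc (2 ^ d * (w s) ^ 2) * A s = 2 ^ d * w s * (w s * A s) := by ring
          _ ≤ 2 ^ d * P ^ 2 * (w s * A s) := by
              apply mul_le_mul_of_nonneg_right _ (mul_nonneg (hw0 s).le (hA0 s))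
              exact mul_le_mul_of_nonneg_left h1 (by positivity)
    _ = 2 ^ d * P ^ 2 * T := by rw [← Finset.mul_sum]
    _ ≤ 2 ^ d * P ^ 2 * (2 * lam * ∫ x, ‖pol G c x‖ ∂(μ d)) :=
        mul_le_mul_of_nonneg_left hTfin (by positivity)
    _ = _ := by
        rw [hlam, hK]
        have : (4 : ℝ) ^ (d + 1) = 4 * (2 ^ d * 2 ^ d) := by
          rw [pow_succ, ← mul_pow]; norm_num; ring
        rw [this]
        ring

end Pool.Agent.Lib.MP_31cf03_an
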