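import Mathlib

set_option autoImplicit false
open MeasureTheory

namespace Pool.Agent.Lib.MP_31cf03_an

/-- the one-dimensional exponential -/
noncomputable def e (k : ℤ) (x : ℝ) : ℂ := Complex.exp (Complex.I * ((k : ℂ) * (x : ℂ)))

/-- normalised Lebesgue measure on one period -/
noncomputable def ν : Measure ℝ :=
  ENNReal.ofReal ((2 * Real.pi)⁻¹) • (volume.restrict (Set.Ico 0 (2 * Real.pi)))

lemma e_norm (k : ℤ) (x : ℝ) : ‖e k x‖ = 1 := by
  unfold e
  have : Complex.I * ((k : ℂ) * (x : ℂ)) = ((k * x : ℝ) : ℂ) * Complex.I := by push_cast; ring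
  rw [this, Complex.norm_exp_ofReal_mul_I]

lemma e_cont (k : ℤ) : Continuous (e k) := by
  unfold e
  fun_prop

instance : IsProbabilityMeasure ν := by
  constructor
  unfold ν
  rw [Measure.smul_apply, Measure.restrict_apply_univ, Real.volume_Ico, smul_eq_mul,
    ← ENNReal.ofReal_mul (by positivity)]
  have : (2 * Real.pi)⁻¹ * (2 * Real.pi - 0) = 1 := by
    have := Real.pi_pos
    field_simp
    ring
  rw [this, ENNReal.ofReal_one]

lemma e_mul_conj (k l : ℤ) (x : ℝ) : e k x * (starRingEnd ℂ) (e l x) = e (k - l) x := by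
  unfold e
  rw [← Complex.exp_conj, ← Complex.exp_add]
  congr 1
  simp only [map_mul, Complex.conj_I, Complex.conj_ofReal, map_intCast]
  push_cast
  ring

lemma int_e (k : ℤ) : ∫ x, e k x ∂ν = if k = 0 then 1 else 0 := by
  by_cases hk : k = 0
  · subst hk
    simp [e]
  · rw [if_neg hk]
    unfold ν
    rw [integral_smul_measure, integral_Ico_eq_integral_Ioo,
      ← integral_Ioc_eq_integral_Ioo, ← intervalIntegral.integral_of_le (by positivity)]
    have h : ∫ x in (0:ℝ)..(2 * Real.pi), e k x = 0 := by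
      have hc : (Complex.I * (k : ℂ)) ≠ 0 := by
        apply mul_ne_zero Complex.I_ne_zero
        exact_mod_cast hk
      have h1 := integral_exp_mul_complex (a := 0) (b := 2 * Real.pi) hc
      have h2 : ∀ x : ℝ, e k x = Complex.exp (Complex.I * (k : ℂ) * (x : ℂ)) := by
        intro x; unfold e; congr 1; ring
      simp_rw [h2]
      rw [h1]
      have h3 : Complex.I * (k : ℂ) * ((2 * Real.pi : ℝ) : ℂ) = (k : ℂ) * (2 * Real.pi * Complex.I) := by
        push_cast; ring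
      rw [h3, Complex.exp_int_mul_two_pi_mul_I]
      simp
    rw [h]; simp

lemma orth (k l : ℤ) : ∫ x, e k x * (starRingEnd ℂ) (e l x) ∂ν = if k = l then 1 else 0 := by
  simp_rw [e_mul_conj, int_e, sub_eq_zero]


section oneD

variable {K : Type} [Fintype K]

/-- pointwise `ℓ²`-norm of a family of one-variable polynomials -/
noncomputable def Q1 (B : Finset ℤ) (g : K → ℤ → ℂ) (x : ℝ) : ℝ :=
  √(∑ κ, ‖∑ k ∈ B, g κ k * e k x‖ ^ 2)

/-- `ℓ²`-norm of the coefficients -/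
noncomputable def N1 (B : Finset ℤ) (g : K → ℤ → ℂ) : ℝ :=
  √(∑ κ, ∑ k ∈ B, ‖g κ k‖ ^ 2)

lemma Q1_nonneg (B : Finset ℤ) (g : K → ℤ → ℂ) (x : ℝ) : 0 ≤ Q1 B g x := Real.sqrt_nonneg _
lemma N1_nonneg (B : Finset ℤ) (g : K → ℤ → ℂ) : 0 ≤ N1 B g := Real.sqrt_nonneg _

lemma Q1_sq (B : Finset ℤ) (g : K → ℤ → ℂ) (x : ℝ) :
    Q1 B g x ^ 2 = ∑ κ, ‖∑ k ∈ B, g κ k * e k x‖ ^ 2 :=
  Real.sq_sqrt (Finset.sum_nonneg fun _ _ => by positivity)

lemma N1_sq (B : Finset ℤ) (g : K → ℤ → ℂ) :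
    N1 B g ^ 2 = ∑ κ, ∑ k ∈ B, ‖g κ k‖ ^ 2 :=
  Real.sq_sqrt (Finset.sum_nonneg fun _ _ => Finset.sum_nonneg fun _ _ => by positivity)

lemma Q1_cont (B : Finset ℤ) (g : K → ℤ → ℂ) : Continuous (Q1 B g) := by
  unfold Q1
  apply Real.continuous_sqrt.comp
  apply continuous_finsetSum
  intro κ _
  apply Continuous.pow
  apply Continuous.norm
  apply continuous_finsetSum
  intro k _
  exact continuous_const.mul (e_cont k)

lemma Q1_le (B : Finset ℤ) (g : K → ℤ → ℂ) (x : ℝ) : Q1 B g x ≤ √(B.card) * N1 B g := by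
  unfold Q1 N1
  rw [← Real.sqrt_mul (by positivity)]
  apply Real.sqrt_le_sqrt
  rw [Finset.mul_sum]
  apply Finset.sum_le_sum
  intro κ _
  have h1 : ‖∑ k ∈ B, g κ k * e k x‖ ≤ ∑ k ∈ B, ‖g κ k‖ := by
    refine (norm_sum_le _ _).trans (le_of_eq ?_)
    apply Finset.sum_congr rfl
    intro k _
    rw [norm_mul, e_norm, mul_one]
  calc ‖∑ k ∈ B, g κ k * e k x‖ ^ 2 ≤ (∑ k ∈ B, ‖g κ k‖) ^ 2 :=
        pow_le_pow_left₀ (norm_nonneg _) h1 2
    _ ≤ B.card * ∑ k ∈ B, ‖g κ k‖ ^ 2 := sq_sum_le_card_mul_sum_sq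

lemma integrable_of_cont_bdd {d : ℕ} (μ : Measure (Fin d → ℝ)) [IsFiniteMeasure μ]
    {f : (Fin d → ℝ) → ℝ} (hf : Continuous f) (C : ℝ) (hC : ∀ x, ‖f x‖ ≤ C) : Integrable f μ :=
  (memLp_one_iff_integrable).mp
    (MemLp.of_bound hf.aestronglyMeasurable C (Filter.Eventually.of_forall hC))

lemma int_normsq (B : Finset ℤ) (h : ℤ → ℂ) :
    ∫ x, ‖∑ k ∈ B, h k * e k x‖ ^ 2 ∂ν = ∑ k ∈ B, ‖h k‖ ^ 2 := by
  have h1 : ∀ x : ℝ, ((‖∑ k ∈ B, h k * e k x‖ ^ 2 : ℝ) : ℂ) =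
      ∑ k ∈ B, ∑ l ∈ B, (h k * (starRingEnd ℂ) (h l)) * (e k x * (starRingEnd ℂ) (e l x)) := by
    intro x
    push_cast
    rw [← Complex.mul_conj', map_sum, Finset.sum_mul_sum]
    apply Finset.sum_congr rfl
    intro k _
    apply Finset.sum_congr rfl
    intro l _
    rw [map_mul]; ring
  have hint : ∀ k l : ℤ, Integrable (fun x => (h k * (starRingEnd ℂ) (h l)) * (e k x * (starRingEnd ℂ) (e l x))) ν := by
    intro k l
    apply Integrable.const_mul
    have hc : Continuous (fun x => e k x * (starRingEnd ℂ) (e l x)) := by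
      have := e_cont k
      have := e_cont l
      fun_prop
    refine (memLp_one_iff_integrable).mp (MemLp.of_bound hc.aestronglyMeasurable 1 ?_)
    refine Filter.Eventually.of_forall fun x => ?_
    rw [norm_mul, e_norm, RCLike.norm_conj, e_norm, one_mul]
  have h2 : ((∫ x, ‖∑ k ∈ B, h k * e k x‖ ^ 2 ∂ν : ℝ) : ℂ) = ((∑ k ∈ B, ‖h k‖ ^ 2 : ℝ) : ℂ) := by
    rw [← integral_complex_ofReal]
    simp_rw [h1]
    rw [integral_finsetSum _ (fun k _ => integrable_finsetSum _ (fun l _ => hint k l))]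
    push_cast
    apply Finset.sum_congr rfl
    intro k hk
    rw [integral_finsetSum _ (fun l _ => hint k l)]
    simp_rw [integral_const_mul, orth]
    simp only [mul_ite, mul_one, mul_zero]
    rw [Finset.sum_ite_eq, if_pos hk, Complex.mul_conj']
  exact_mod_cast h2

lemma int_Q1_sq (B : Finset ℤ) (g : K → ℤ → ℂ) : ∫ x, Q1 B g x ^ 2 ∂ν = N1 B g ^ 2 := by
  simp_rw [Q1_sq, N1_sq]
  rw [integral_finsetSum]
  · apply Finset.sum_congr rfl
    intro κ _
    exact int_normsq B (g κ)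
  · intro κ _
    have hc : Continuous (fun x => ‖∑ k ∈ B, g κ k * e k x‖ ^ 2) := by
      apply Continuous.pow
      apply Continuous.norm
      apply continuous_finsetSum
      intro k _
      exact continuous_const.mul (e_cont k)
    refine (memLp_one_iff_integrable).mp (MemLp.of_bound hc.aestronglyMeasurable ((∑ k ∈ B, ‖g κ k‖) ^ 2) ?_)
    refine Filter.Eventually.of_forall fun x => ?_
    rw [norm_pow, norm_norm]
    apply pow_le_pow_left₀ (norm_nonneg _)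
    refine (norm_sum_le _ _).trans (le_of_eq ?_)
    apply Finset.sum_congr rfl
    intro k _
    rw [norm_mul, e_norm, mul_one]

lemma Q1_memLp (B : Finset ℤ) (g : K → ℤ → ℂ) (p : ENNReal) : MemLp (Q1 B g) p ν := by
  refine MemLp.of_bound (Q1_cont B g).aestronglyMeasurable (√(B.card) * N1 B g) ?_
  refine Filter.Eventually.of_forall fun x => ?_
  rw [Real.norm_of_nonneg (Q1_nonneg _ _ _)]
  exact Q1_le B g x

end oneD

lemma int_Q1_mul {K2 K3 : Type} [Fintype K2] [Fintype K3]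
    (B2 B3 : Finset ℤ) (g2 : K2 → ℤ → ℂ) (g3 : K3 → ℤ → ℂ) :
    ∫ x, Q1 B2 g2 x * Q1 B3 g3 x ∂ν ≤ N1 B2 g2 * N1 B3 g3 := by
  have h := integral_mul_le_Lp_mul_Lq_of_nonneg (μ := ν) (p := 2) (q := 2)
    Real.HolderConjugate.two_two (f := Q1 B2 g2) (g := Q1 B3 g3)
    (Filter.Eventually.of_forall fun x => Q1_nonneg _ _ x)
    (Filter.Eventually.of_forall fun x => Q1_nonneg _ _ x)
    (Q1_memLp _ _ _) (Q1_memLp _ _ _)
  simp only [Real.rpow_two] at h
  rw [int_Q1_sq, int_Q1_sq, ← Real.sqrt_eq_rpow, ← Real.sqrt_eq_rpow, Real.sqrt_sq (N1_nonneg _ _),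
    Real.sqrt_sq (N1_nonneg _ _)] at h
  exact h

lemma tri1 {K1 K2 K3 : Type} [Fintype K1] [Fintype K2] [Fintype K3]
    (B1 B2 B3 : Finset ℤ) (g1 : K1 → ℤ → ℂ) (g2 : K2 → ℤ → ℂ) (g3 : K3 → ℤ → ℂ) :
    ∫ x, Q1 B1 g1 x * Q1 B2 g2 x * Q1 B3 g3 x ∂ν ≤
      √(B1.card) * (N1 B1 g1 * N1 B2 g2 * N1 B3 g3) := by
  calc ∫ x, Q1 B1 g1 x * Q1 B2 g2 x * Q1 B3 g3 x ∂ν
      ≤ ∫ x, (√(B1.card) * N1 B1 g1) * (Q1 B2 g2 x * Q1 B3 g3 x) ∂ν := by
        apply integral_mono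
        · have hc : Continuous (fun x => Q1 B1 g1 x * Q1 B2 g2 x * Q1 B3 g3 x) :=
            ((Q1_cont B1 g1).mul (Q1_cont B2 g2)).mul (Q1_cont B3 g3)
          refine (memLp_one_iff_integrable).mp (MemLp.of_bound hc.aestronglyMeasurable
            ((√(B1.card) * N1 B1 g1) * (√(B2.card) * N1 B2 g2) * (√(B3.card) * N1 B3 g3)) ?_)
          refine Filter.Eventually.of_forall fun x => ?_
          rw [Real.norm_of_nonneg (mul_nonneg (mul_nonneg (Q1_nonneg _ _ _) (Q1_nonneg _ _ _)) (Q1_nonneg _ _ _))]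
          have h1 : 0 ≤ √(B1.card) * N1 B1 g1 := mul_nonneg (by positivity) (N1_nonneg _ _)
          have h2 : 0 ≤ √(B2.card) * N1 B2 g2 := mul_nonneg (by positivity) (N1_nonneg _ _)
          exact mul_le_mul (mul_le_mul (Q1_le _ _ _) (Q1_le _ _ _) (Q1_nonneg _ _ _) h1)
            (Q1_le _ _ _) (Q1_nonneg _ _ _) (mul_nonneg h1 h2)
        · have hc : Continuous (fun x => (√(B1.card) * N1 B1 g1) * (Q1 B2 g2 x * Q1 B3 g3 x)) :=
            continuous_const.mul ((Q1_cont B2 g2).mul (Q1_cont B3 g3))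
          refine (memLp_one_iff_integrable).mp (MemLp.of_bound hc.aestronglyMeasurable
            ((√(B1.card) * N1 B1 g1) * ((√(B2.card) * N1 B2 g2) * (√(B3.card) * N1 B3 g3))) ?_)
          refine Filter.Eventually.of_forall fun x => ?_
          have h0 : 0 ≤ √(B1.card) * N1 B1 g1 := mul_nonneg (by positivity) (N1_nonneg _ _)
          have h0' : 0 ≤ √(B2.card) * N1 B2 g2 := mul_nonneg (by positivity) (N1_nonneg _ _)
          rw [Real.norm_of_nonneg (mul_nonneg h0 (mul_nonneg (Q1_nonneg _ _ _) (Q1_nonneg _ _ _)))]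
          apply mul_le_mul_of_nonneg_left _ h0
          exact mul_le_mul (Q1_le _ _ _) (Q1_le _ _ _) (Q1_nonneg _ _ _) h0'
        · intro x
          show Q1 B1 g1 x * Q1 B2 g2 x * Q1 B3 g3 x ≤ (√(B1.card) * N1 B1 g1) * (Q1 B2 g2 x * Q1 B3 g3 x)
          rw [mul_assoc]
          apply mul_le_mul_of_nonneg_right (Q1_le _ _ _)
          exact mul_nonneg (Q1_nonneg _ _ _) (Q1_nonneg _ _ _)
    _ = (√(B1.card) * N1 B1 g1) * ∫ x, (Q1 B2 g2 x * Q1 B3 g3 x) ∂ν := integral_const_mul _ _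
    _ ≤ (√(B1.card) * N1 B1 g1) * (N1 B2 g2 * N1 B3 g3) := by
        apply mul_le_mul_of_nonneg_left (int_Q1_mul _ _ _ _)
        exact mul_nonneg (by positivity) (N1_nonneg _ _)
    _ = _ := by ring

lemma tri1_min {K1 K2 K3 : Type} [Fintype K1] [Fintype K2] [Fintype K3]
    (B1 B2 B3 : Finset ℤ) (g1 : K1 → ℤ → ℂ) (g2 : K2 → ℤ → ℂ) (g3 : K3 → ℤ → ℂ) :
    ∫ x, Q1 B1 g1 x * Q1 B2 g2 x * Q1 B3 g3 x ∂ν ≤
      √(((min (min B1.card B2.card) B3.card : ℕ) : ℝ)) * (N1 B1 g1 * N1 B2 g2 * N1 B3 g3) := by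
  have h1 := tri1 B1 B2 B3 g1 g2 g3
  have h2 := tri1 B2 B1 B3 g2 g1 g3
  have h3 := tri1 B3 B1 B2 g3 g1 g2
  have e2 : ∫ x, Q1 B2 g2 x * Q1 B1 g1 x * Q1 B3 g3 x ∂ν = ∫ x, Q1 B1 g1 x * Q1 B2 g2 x * Q1 B3 g3 x ∂ν := by
    congr 1; ext x; ring
  have e3 : ∫ x, Q1 B3 g3 x * Q1 B1 g1 x * Q1 B2 g2 x ∂ν = ∫ x, Q1 B1 g1 x * Q1 B2 g2 x * Q1 B3 g3 x ∂ν := by
    congr 1; ext x; ring
  rw [e2] at h2
  rw [e3] at h3
  rcases min_choice (min B1.card B2.card) B3.card with h | h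
  · rw [h]
    rcases min_choice B1.card B2.card with h' | h'
    · rw [h']; exact h1
    · rw [h']; refine h2.trans (le_of_eq ?_); ring
  · rw [h]; refine h3.trans (le_of_eq ?_); ring

/-! ### several variables -/

/-- the multivariate exponential -/
noncomputable def ee {d : ℕ} (k : Fin d → ℤ) (x : Fin d → ℝ) : ℂ := ∏ j, e (k j) (x j)

lemma ee_norm {d : ℕ} (k : Fin d → ℤ) (x : Fin d → ℝ) : ‖ee k x‖ = 1 := by
  unfold ee
  rw [norm_prod]
  simp [e_norm]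

lemma ee_cont {d : ℕ} (k : Fin d → ℤ) : Continuous (ee k) := by
  unfold ee
  apply continuous_finsetProd
  intro j _
  exact (e_cont (k j)).comp (continuous_apply j)

lemma ee_cons {d : ℕ} (k0 : ℤ) (k : Fin d → ℤ) (x0 : ℝ) (x : Fin d → ℝ) :
    ee (Fin.cons k0 k : Fin (d + 1) → ℤ) (Fin.cons x0 x : Fin (d + 1) → ℝ) = e k0 x0 * ee k x := by
  unfold ee
  rw [Fin.prod_univ_succ]
  simp

/-- the product probability measure -/
noncomputable def μ (d : ℕ) : Measure (Fin d → ℝ) := Measure.pi (fun _ => ν)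

instance (d : ℕ) : IsProbabilityMeasure (μ d) := by
  unfold μ
  infer_instance

section multiD

variable {K : Type} [Fintype K]

noncomputable def Q {d : ℕ} (B : Fin d → Finset ℤ) (c : K → (Fin d → ℤ) → ℂ) (x : Fin d → ℝ) : ℝ :=
  √(∑ κ, ‖∑ k ∈ Fintype.piFinset B, c κ k * ee k x‖ ^ 2)

noncomputable def NN {d : ℕ} (B : Fin d → Finset ℤ) (c : K → (Fin d → ℤ) → ℂ) : ℝ :=
  √(∑ κ, ∑ k ∈ Fintype.piFinset B, ‖c κ k‖ ^ 2)

lemma Q_nonneg {d : ℕ} (B : Fin d → Finset ℤ) (c : K → (Fin d → ℤ) → ℂ) (x : Fin d → ℝ) :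
    0 ≤ Q B c x := Real.sqrt_nonneg _

lemma NN_nonneg {d : ℕ} (B : Fin d → Finset ℤ) (c : K → (Fin d → ℤ) → ℂ) :
    0 ≤ NN B c := Real.sqrt_nonneg _

lemma Q_cont {d : ℕ} (B : Fin d → Finset ℤ) (c : K → (Fin d → ℤ) → ℂ) : Continuous (Q B c) := by
  unfold Q
  apply Real.continuous_sqrt.comp
  apply continuous_finsetSum
  intro κ _
  apply Continuous.pow
  apply Continuous.norm
  apply continuous_finsetSum
  intro k _
  exact continuous_const.mul (ee_cont k)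

lemma Q_bdd {d : ℕ} (B : Fin d → Finset ℤ) (c : K → (Fin d → ℤ) → ℂ) :
    ∃ C : ℝ, ∀ x, ‖Q B c x‖ ≤ C := by
  refine ⟨√(∑ κ, (∑ k ∈ Fintype.piFinset B, ‖c κ k‖) ^ 2), fun x => ?_⟩
  rw [Real.norm_of_nonneg (Q_nonneg _ _ _)]
  unfold Q
  apply Real.sqrt_le_sqrt
  apply Finset.sum_le_sum
  intro κ _
  apply pow_le_pow_left₀ (norm_nonneg _)
  refine (norm_sum_le _ _).trans (le_of_eq ?_)
  apply Finset.sum_congr rfl
  intro k _
  rw [norm_mul, ee_norm, mul_one]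

lemma sum_piFinset_succ {d : ℕ} {E : Type*} [AddCommMonoid E] (B : Fin (d + 1) → Finset ℤ)
    (f : (Fin (d + 1) → ℤ) → E) :
    ∑ k ∈ Fintype.piFinset B, f k =
      ∑ k0 ∈ B 0, ∑ k ∈ Fintype.piFinset (fun j : Fin d => B j.succ), f (Fin.cons k0 k) := by
  rw [← Finset.sum_product']
  refine Finset.sum_nbij' (fun k => (k 0, Fin.tail k)) (fun p => Fin.cons p.1 p.2) ?_ ?_ ?_ ?_ ?_
  · intro k hk
    rw [Fintype.mem_piFinset] at hk
    simp only [Finset.mem_product, Fintype.mem_piFinset]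
    exact ⟨hk 0, fun j => hk j.succ⟩
  · intro p hp
    simp only [Finset.mem_product, Fintype.mem_piFinset] at hp
    rw [Fintype.mem_piFinset]
    intro j
    refine Fin.cases ?_ (fun j => ?_) j
    · simpa using hp.1
    · simpa using hp.2 j
  · intro k _
    simp
  · intro p _
    simp
  · intro k _
    simp

/-- the coefficients after freezing all but the first frequency -/
noncomputable def slice {d : ℕ} (B : Fin (d + 1) → Finset ℤ) (c : K → (Fin (d + 1) → ℤ) → ℂ)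
    (x : Fin d → ℝ) : K → ℤ → ℂ :=
  fun κ k0 => ∑ k ∈ Fintype.piFinset (fun j : Fin d => B j.succ), c κ (Fin.cons k0 k) * ee k x

noncomputable def lift {d : ℕ} (B : Fin (d + 1) → Finset ℤ) (c : K → (Fin (d + 1) → ℤ) → ℂ) :
    K × ↥(B 0) → (Fin d → ℤ) → ℂ :=
  fun κ k => c κ.1 (Fin.cons κ.2.1 k)

lemma Q_cons {d : ℕ} (B : Fin (d + 1) → Finset ℤ) (c : K → (Fin (d + 1) → ℤ) → ℂ)
    (x0 : ℝ) (x : Fin d → ℝ) :
    Q B c (Fin.cons x0 x : Fin (d + 1) → ℝ) = Q1 (B 0) (slice B c x) x0 := by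
  unfold Q Q1 slice
  congr 1
  apply Finset.sum_congr rfl
  intro κ _
  rw [sum_piFinset_succ]
  congr 2
  apply Finset.sum_congr rfl
  intro k0 _
  rw [Finset.sum_mul]
  apply Finset.sum_congr rfl
  intro k _
  rw [ee_cons]
  ring

lemma N1_slice {d : ℕ} (B : Fin (d + 1) → Finset ℤ) (c : K → (Fin (d + 1) → ℤ) → ℂ)
    (x : Fin d → ℝ) :
    N1 (B 0) (slice B c x) = Q (fun j : Fin d => B j.succ) (lift B c) x := by
  unfold N1 Q slice lift
  congr 1
  rw [Fintype.sum_prod_type]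
  apply Finset.sum_congr rfl
  intro κ _
  rw [← Finset.sum_coe_sort]

lemma NN_lift {d : ℕ} (B : Fin (d + 1) → Finset ℤ) (c : K → (Fin (d + 1) → ℤ) → ℂ) :
    NN (fun j : Fin d => B j.succ) (lift B c) = NN B c := by
  unfold NN lift
  congr 1
  rw [Fintype.sum_prod_type]
  apply Finset.sum_congr rfl
  intro κ _
  rw [sum_piFinset_succ]
  exact Finset.sum_coe_sort (B 0) (fun k0 => ∑ k ∈ Fintype.piFinset (fun j : Fin d => B j.succ),
    ‖c κ (Fin.cons k0 k)‖ ^ 2)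

end multiD

/-- Fubini in the first variable -/
lemma integral_succ {d : ℕ} (f : (Fin (d + 1) → ℝ) → ℝ) (hf : Continuous f) (C : ℝ)
    (hC : ∀ x, ‖f x‖ ≤ C) :
    ∫ x, f x ∂(μ (d + 1)) = ∫ x, ∫ x0, f (Fin.cons x0 x) ∂ν ∂(μ d) := by
  have hmp := ((measurePreserving_piFinSuccAbove (fun _ : Fin (d + 1) => ν) 0).symm)
  unfold μ
  rw [← hmp.integral_comp']
  simp_rw [MeasurableEquiv.piFinSuccAbove_symm_apply, Fin.insertNthEquiv_zero]
  have hcons : Continuous (fun z : ℝ × (Fin d → ℝ) => (Fin.cons z.1 z.2 : Fin (d + 1) → ℝ)) := by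
    apply continuous_pi
    intro j
    refine Fin.cases ?_ (fun j => ?_) j
    · simpa using continuous_fst
    · have : Continuous (fun z : ℝ × (Fin d → ℝ) => z.2 j) := (continuous_apply j).comp continuous_snd
      simpa using this
  have hint : Integrable (fun z : ℝ × (Fin d → ℝ) => f (Fin.cons z.1 z.2))
      (ν.prod (Measure.pi fun _ : Fin d => ν)) := by
    refine (memLp_one_iff_integrable).mp
      (MemLp.of_bound (hf.comp hcons).aestronglyMeasurable C (Filter.Eventually.of_forall fun z => hC _))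
  exact integral_prod_symm _ hint

theorem tri : ∀ (d : ℕ) (K1 K2 K3 : Type) [Fintype K1] [Fintype K2] [Fintype K3]
    (B1 B2 B3 : Fin d → Finset ℤ) (c1 : K1 → (Fin d → ℤ) → ℂ) (c2 : K2 → (Fin d → ℤ) → ℂ)
    (c3 : K3 → (Fin d → ℤ) → ℂ),
    ∫ x, Q B1 c1 x * Q B2 c2 x * Q B3 c3 x ∂(μ d) ≤
      (∏ j, √(((min (min (B1 j).card (B2 j).card) (B3 j).card : ℕ) : ℝ))) *
        (NN B1 c1 * NN B2 c2 * NN B3 c3) := by
  intro d
  induction d with
  | zero =>
    intro K1 K2 K3 _ _ _ B1 B2 B3 c1 c2 c3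
    have h : ∀ {K : Type} [Fintype K] (B : Fin 0 → Finset ℤ) (c : K → (Fin 0 → ℤ) → ℂ)
        (x : Fin 0 → ℝ), Q B c x = NN B c := by
      intro K _ B c x
      unfold Q NN
      simp [ee]
    simp_rw [h]
    simp
  | succ d ih =>
    intro K1 K2 K3 _ _ _ B1 B2 B3 c1 c2 c3
    have hc : Continuous (fun x => Q B1 c1 x * Q B2 c2 x * Q B3 c3 x) :=
      ((Q_cont _ _).mul (Q_cont _ _)).mul (Q_cont _ _)
    obtain ⟨C1, h1⟩ := Q_bdd B1 c1
    obtain ⟨C2, h2⟩ := Q_bdd B2 c2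
    obtain ⟨C3, h3⟩ := Q_bdd B3 c3
    have hC1 : 0 ≤ C1 := (norm_nonneg _).trans (h1 0)
    have hC2 : 0 ≤ C2 := (norm_nonneg _).trans (h2 0)
    have hb : ∀ x, ‖Q B1 c1 x * Q B2 c2 x * Q B3 c3 x‖ ≤ C1 * C2 * C3 := by
      intro x
      rw [norm_mul, norm_mul]
      exact mul_le_mul (mul_le_mul (h1 x) (h2 x) (norm_nonneg _) hC1) (h3 x) (norm_nonneg _)
        (mul_nonneg hC1 hC2)
    rw [integral_succ _ hc _ hb]
    simp_rw [Q_cons]
    set m : ℝ := √(((min (min (B1 0).card (B2 0).card) (B3 0).card : ℕ) : ℝ)) with hm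
    have hstep : ∀ x : Fin d → ℝ, (∫ x0, Q1 (B1 0) (slice B1 c1 x) x0 * Q1 (B2 0) (slice B2 c2 x) x0
        * Q1 (B3 0) (slice B3 c3 x) x0 ∂ν) ≤
        m * (Q (fun j : Fin d => B1 j.succ) (lift B1 c1) x * Q (fun j : Fin d => B2 j.succ) (lift B2 c2) x
          * Q (fun j : Fin d => B3 j.succ) (lift B3 c3) x) := by
      intro x
      have := tri1_min (B1 0) (B2 0) (B3 0) (slice B1 c1 x) (slice B2 c2 x) (slice B3 c3 x)
      rw [N1_slice, N1_slice, N1_slice] at this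
      exact this
    have hnn : ∀ x : Fin d → ℝ, 0 ≤ (∫ x0, Q1 (B1 0) (slice B1 c1 x) x0 * Q1 (B2 0) (slice B2 c2 x) x0
        * Q1 (B3 0) (slice B3 c3 x) x0 ∂ν) := by
      intro x
      apply integral_nonneg
      intro x0
      exact mul_nonneg (mul_nonneg (Q1_nonneg _ _ _) (Q1_nonneg _ _ _)) (Q1_nonneg _ _ _)
    have hint : Integrable (fun x => m * (Q (fun j : Fin d => B1 j.succ) (lift B1 c1) x * Q (fun j : Fin d => B2 j.succ) (lift B2 c2) x
          * Q (fun j : Fin d => B3 j.succ) (lift B3 c3) x)) (μ d) := by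
      apply Integrable.const_mul
      have hc' : Continuous (fun x => (Q (fun j : Fin d => B1 j.succ) (lift B1 c1) x * Q (fun j : Fin d => B2 j.succ) (lift B2 c2) x
          * Q (fun j : Fin d => B3 j.succ) (lift B3 c3) x)) :=
        ((Q_cont _ _).mul (Q_cont _ _)).mul (Q_cont _ _)
      obtain ⟨D1, k1⟩ := Q_bdd (fun j : Fin d => B1 j.succ) (lift B1 c1)
      obtain ⟨D2, k2⟩ := Q_bdd (fun j : Fin d => B2 j.succ) (lift B2 c2)
      obtain ⟨D3, k3⟩ := Q_bdd (fun j : Fin d => B3 j.succ) (lift B3 c3)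
      have hD1 : 0 ≤ D1 := (norm_nonneg _).trans (k1 0)
      have hD2 : 0 ≤ D2 := (norm_nonneg _).trans (k2 0)
      refine integrable_of_cont_bdd (μ d) hc' (D1 * D2 * D3) ?_
      intro x
      rw [norm_mul, norm_mul]
      exact mul_le_mul (mul_le_mul (k1 x) (k2 x) (norm_nonneg _) hD1) (k3 x) (norm_nonneg _)
        (mul_nonneg hD1 hD2)
    calc _ ≤ ∫ x, m * (Q (fun j : Fin d => B1 j.succ) (lift B1 c1) x * Q (fun j : Fin d => B2 j.succ) (lift B2 c2) x
          * Q (fun j : Fin d => B3 j.succ) (lift B3 c3) x) ∂(μ d) :=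
          integral_mono_of_nonneg (Filter.Eventually.of_forall hnn) hint (Filter.Eventually.of_forall hstep)
      _ = m * ∫ x, (Q (fun j : Fin d => B1 j.succ) (lift B1 c1) x * Q (fun j : Fin d => B2 j.succ) (lift B2 c2) x
          * Q (fun j : Fin d => B3 j.succ) (lift B3 c3) x) ∂(μ d) := integral_const_mul _ _
      _ ≤ m * _ := mul_le_mul_of_nonneg_left (ih _ _ _ _ _ _ _ _ _) (Real.sqrt_nonneg _)
      _ = _ := by
          rw [NN_lift, NN_lift, NN_lift, Fin.prod_univ_succ, hm]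
          ring

end Pool.Agent.Lib.MP_31cf03_an
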